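import Mathlib

namespace Pool.Agent.H.MP_097dd0_an

open Metric Set Filter Topology RealInnerProductSpace

variable {E : Type} [NormedAddCommGroup E] [InnerProductSpace ℝ E]

lemma nested [CompleteSpace E] (C : ℕ → Set E) (ha : Antitone C) (hc : ∀ n, IsClosed (C n))
    (hv : ∀ n, Convex ℝ (C n)) (hn : ∀ n, (C n).Nonempty) (R : ℝ) (hR : ∀ x ∈ C 0, ‖x‖ ≤ R) :
    ∃ x, ∀ n, x ∈ C n := by
  have : ∀ n, ∃ x ∈ C n, ∀ w ∈ C n, ⟪0 - x, w - x⟫ ≤ 0 := fun n => by
    obtain ⟨x, hx, h⟩ := exists_norm_eq_iInf_of_complete_convex (hn n) (hc n).isComplete (hv n) 0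
    exact ⟨x, hx, (norm_eq_iInf_iff_real_inner_le_zero (hv n) hx).1 h⟩
  choose x hx h using this
  have key : ∀ n m, n ≤ m → ‖x m - x n‖ ^ 2 ≤ ‖x m‖ ^ 2 - ‖x n‖ ^ 2 := by
    intro n m hnm
    have := h n (x m) (ha hnm (hx m))
    rw [zero_sub, inner_neg_left, inner_sub_right, real_inner_self_eq_norm_sq] at this
    rw [norm_sub_sq_real, real_inner_comm]
    linarith
  have bd : BddAbove (range fun n => ‖x n‖ ^ 2) := ⟨R ^ 2, by
    rintro _ ⟨n, rfl⟩
    exact pow_le_pow_left₀ (norm_nonneg _) (hR _ (ha (Nat.zero_le n) (hx n))) 2⟩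
  have cau : CauchySeq x := by
    refine Metric.cauchySeq_iff'.2 fun e he => ?_
    obtain ⟨N, hN⟩ := exists_lt_of_lt_ciSup (show (⨆ n, ‖x n‖ ^ 2) - e ^ 2 < ⨆ n, ‖x n‖ ^ 2 by
      have : 0 < e ^ 2 := by positivity
      linarith)
    refine ⟨N, fun n hn => ?_⟩
    rw [dist_eq_norm]
    refine lt_of_pow_lt_pow_left₀ 2 he.le ?_
    linarith [key N n hn, le_ciSup bd n]
  obtain ⟨y, hy⟩ := cauchySeq_tendsto_of_complete cau
  exact ⟨y, fun n => (hc n).mem_of_tendsto hy ((eventually_ge_atTop n).mono fun m hm => ha hm (hx m))⟩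

def pw (p : E × ℝ) (y : E) : ℝ := ‖y - p.1‖ ^ 2 - p.2 ^ 2

lemma mem_of_pw {p : E × ℝ} (hp : 0 < p.2) {y : E} (h : pw p y ≤ 0) : y ∈ closedBall p.1 p.2 := by
  rw [mem_closedBall, dist_eq_norm]
  exact le_of_pow_le_pow_left₀ two_ne_zero hp.le (by unfold pw at h; linarith)

def Good (S : Set (E × ℝ)) (w : E) : Prop := ∃ (V : Finset E) (u h : E), (∀ v ∈ V, ⟪v, h⟫ = 0) ∧
  0 < ⟪u, h⟫ ∧ ∀ a, (∀ v ∈ V, ⟪v, a⟫ = 0) → ‖u + a‖ = ‖u‖ → ∀ p ∈ S, 0 ≤ pw p (w + a)

lemma sph [CompleteSpace E] {S : Set (E × ℝ)} (hpos : ∀ p ∈ S, 0 < p.2)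
    (hfin : ∀ x, {p ∈ S | x ∈ closedBall p.1 p.2}.Finite)
    (hinf : ∀ V : Finset E, ∃ e : E, e ≠ 0 ∧ ∀ v ∈ V, ⟪v, e⟫ = 0)
    (y : E) (V : Finset E) {s : ℝ} (hs : 0 < s) (h0 : ∀ p ∈ S, -s ^ 2 ≤ pw p y) :
    ∃ u, Good S (y + u) ∧ ‖u‖ = s ∧ ∀ v ∈ V, ⟪v, u⟫ = 0 := by
  classical
  set l : E × ℝ → E → ℝ := fun p u => 2 * ⟪p.1 - y, u⟫ - s ^ 2 - pw p y with hl
  have hpw : ∀ p u, pw p (y + u) = ‖u‖ ^ 2 - s ^ 2 - l p u := by
    intro p u
    simp only [hl, pw]
    rw [show y + u - p.1 = u - (p.1 - y) by abel, norm_sub_sq_real, real_inner_comm, norm_sub_rev y]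
    ring
  have fK : ∀ u, ‖u‖ ≤ s → {p ∈ S | 0 ≤ l p u}.Finite := fun u hu =>
    (hfin (y + u)).subset fun p hp => ⟨hp.1, mem_of_pw (hpos p hp.1) (by
      have := pow_le_pow_left₀ (norm_nonneg _) hu 2
      rw [hpw]; linarith [hp.2])⟩
  set X : Set E := {u | (∀ v ∈ V, ⟪v, u⟫ = 0) ∧ ‖u‖ < s ∧ ∀ p ∈ S, l p u ≤ 0} with hX
  set M : E → Set (E × ℝ) := fun u => {p ∈ S | l p u = 0} with hM
  have hX0 : (0 : E) ∈ X := ⟨fun v _ => by simp, by simpa using hs, fun p hp => by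
    simp only [hl, inner_zero_right]; linarith [h0 p hp]⟩
  obtain ⟨u0, hu0, hmax⟩ : ∃ u0 ∈ X, ∀ u ∈ X, M u0 ⊆ M u → M u ⊆ M u0 := by
    by_contra hcon
    push Not at hcon
    choose! f hf1 hf2 hf3 using hcon
    have hm : ∀ n, f^[n] 0 ∈ X := by
      intro n
      induction n with
      | zero => exact hX0
      | succ n ih => rw [Function.iterate_succ_apply']; exact hf1 _ ih
    have hsm : StrictMono fun n => M (f^[n] 0) := strictMono_nat_of_lt_succ fun n => by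
      rw [Function.iterate_succ_apply']; exact ⟨hf2 _ (hm n), hf3 _ (hm n)⟩
    obtain ⟨x, hx⟩ := nested (fun n => {u | ‖u‖ ≤ s ∧ ∀ p ∈ M (f^[n] 0), l p u = 0})
      (fun n m hnm u hu => ⟨hu.1, fun p hp => hu.2 p (hsm.monotone hnm hp)⟩)
      (fun n => by
        simp only [setOf_and, setOf_forall]
        exact (isClosed_le (by fun_prop) continuous_const).inter (isClosed_iInter fun p =>
          isClosed_iInter fun _ => isClosed_eq (by simp only [hl]; fun_prop) continuous_const))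
      (fun n a ha b hb c d hc hd hcd => ⟨by
        have := convex_closedBall (0 : E) s (mem_closedBall_zero_iff.2 ha.1)
          (mem_closedBall_zero_iff.2 hb.1) hc hd hcd
        exact mem_closedBall_zero_iff.1 this, fun p hp => by
        have h1 := ha.2 p hp
        have h2 := hb.2 p hp
        simp only [hl, inner_add_right, real_inner_smul_right] at h1 h2 ⊢
        linear_combination c * h1 + d * h2 + (s ^ 2 + pw p y) * hcd⟩)
      (fun n => ⟨f^[n] 0, (hm n).2.1.le, fun p hp => hp.2⟩) s (fun x hx => hx.1)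
    have hF := fK x (hx 0).1
    refine (hF.finite_subsets.subset ?_).not_infinite (infinite_range_of_injective hsm.injective)
    rintro _ ⟨n, rfl⟩ p hp
    exact ⟨hp.1, ((hx n).2 p hp).ge⟩
  have seg : ∀ u, (∀ v ∈ V, ⟪v, u⟫ = 0) → ‖u‖ ≤ s → (∀ p ∈ M u0, l p u = 0) → ∀ p ∈ S, l p u ≤ 0 := by
    intro u h1 h2 h3
    by_contra hcon
    push Not at hcon
    have hF : {p ∈ S | 0 < l p u}.Finite := (fK u h2).subset fun p hp => ⟨hp.1, hp.2.le⟩
    obtain ⟨q, hq, hmin⟩ := exists_min_image _ (fun p => -l p u0 / (l p u - l p u0)) hF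
      (by obtain ⟨p, a, b⟩ := hcon; exact ⟨p, a, b⟩)
    have q0 := hu0.2.2 q hq.1
    have q1 : 0 < l q u := hq.2
    set t := -l q u0 / (l q u - l q u0) with ht
    have t0 : 0 ≤ t := div_nonneg (by linarith) (by linarith)
    have t1 : t < 1 := by rw [ht, div_lt_one (by linarith)]; linarith
    have e : ∀ p, l p ((1 - t) • u0 + t • u) = l p u0 + t * (l p u - l p u0) := fun p => by
      simp only [hl, inner_add_right, real_inner_smul_right]; ring
    have hmem : (1 - t) • u0 + t • u ∈ X := by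
      refine ⟨fun v hv => ?_, ?_, fun p hp => ?_⟩
      · rw [inner_add_right, real_inner_smul_right, real_inner_smul_right, hu0.1 v hv, h1 v hv]; ring
      · refine (norm_add_le _ _).trans_lt ?_
        rw [norm_smul, norm_smul, Real.norm_of_nonneg t0, Real.norm_of_nonneg (by linarith)]
        nlinarith [hu0.2.1]
      · rw [e]
        have p0 := hu0.2.2 p hp
        by_cases hp2 : 0 < l p u
        · have := hmin p ⟨hp, hp2⟩
          rw [le_div_iff₀ (by linarith)] at this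
          linarith
        · nlinarith
    have := hmax _ hmem (fun p hp => ⟨hp.1, by rw [e, h3 p hp, hp.2]; ring⟩)
      (show q ∈ M _ from ⟨hq.1, by
        rw [e, ht, div_mul_cancel₀ _ (by linarith : l q u - l q u0 ≠ 0)]; ring⟩)
    linarith [h3 q this]
  have hMf : (M u0).Finite := (fK u0 hu0.2.1.le).subset fun p hp => ⟨hp.1, hp.2.ge⟩
  obtain ⟨e, he0, he⟩ := hinf (V ∪ hMf.toFinset.image fun p => p.1 - y)
  obtain ⟨t, -, ht⟩ : ∃ t ∈ Icc (0 : ℝ) (2 * s / ‖e‖), ‖u0 + t • e‖ = s := by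
    have hn : 0 < ‖e‖ := norm_pos_iff.2 he0
    refine intermediate_value_Icc (f := fun t : ℝ => ‖u0 + t • e‖) (by positivity) (by fun_prop)
      ⟨by simpa using hu0.2.1.le, ?_⟩
    have := norm_sub_le (u0 + (2 * s / ‖e‖) • e) u0
    rw [add_sub_cancel_left, norm_smul, Real.norm_of_nonneg (by positivity),
      div_mul_cancel₀ _ hn.ne'] at this
    linarith [hu0.2.1]
  have hVe : ∀ v ∈ V, ⟪v, u0 + t • e⟫ = 0 := fun v hv => by
    rw [inner_add_right, real_inner_smul_right, hu0.1 v hv, he v (Finset.mem_union_left _ hv)]; ring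
  refine ⟨u0 + t • e, ⟨V ∪ hMf.toFinset.image fun p => p.1 - y, u0 + t • e, t • e, fun v hv => ?_, ?_,
    fun a ha hn p hp => ?_⟩, ht, hVe⟩
  · rw [real_inner_smul_right, he v hv, mul_zero]
  · have h1 : ⟪u0 + t • e, t • e⟫ = ‖u0 + t • e‖ ^ 2 - ⟪u0 + t • e, u0⟫ := by
      rw [← real_inner_self_eq_norm_sq, ← inner_sub_right, add_sub_cancel_left]
    have h2 := real_inner_le_norm (u0 + t • e) u0
    rw [h1, ht] at *
    nlinarith [hu0.2.1]
  · rw [add_assoc, hpw, hn, ht]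
    have := seg (u0 + t • e + a) (fun v hv => by
      rw [inner_add_right, hVe v hv, ha v (Finset.mem_union_left _ hv), add_zero]) (by rw [hn, ht])
      (fun q hq => by
        have hm : q.1 - y ∈ V ∪ hMf.toFinset.image fun p => p.1 - y :=
          Finset.mem_union_right _ (Finset.mem_image.2 ⟨q, hMf.mem_toFinset.2 hq, rfl⟩)
        have h1 := hq.2
        simp only [hl, inner_add_right, real_inner_smul_right, he _ hm, ha _ hm] at h1 ⊢
        linarith) p hp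
    linarith

lemma geo {w a d : E} {p : E × ℝ} {r g : ℝ} (hr : r ≤ p.2) (hd : ‖d‖ = 1)
    (hc : p.1 = w + (p.2 + g) • d) (h1 : g ≤ ⟪a, d⟫)
    (h2 : ‖a‖ ^ 2 + g ^ 2 - 2 * g * ⟪a, d⟫ - 2 * r * (⟪a, d⟫ - g) < 0) : pw p (w + a) < 0 := by
  unfold pw
  rw [hc, add_sub_add_left_eq_sub, norm_sub_sq_real, real_inner_smul_right, norm_smul, hd,
    Real.norm_eq_abs, mul_one, sq_abs]
  nlinarith [mul_le_mul_of_nonneg_right hr (sub_nonneg.2 h1)]

lemma loc {S : Set (E × ℝ)} (hpos : ∀ p ∈ S, 0 < p.2)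
    (hfin : ∀ x, {p ∈ S | x ∈ closedBall p.1 p.2}.Finite) {w : E} (hw : Good S w) {r : ℝ} (hr : 0 < r) :
    ∃ e > 0, {p ∈ S | r ≤ p.2 ∧ ‖p.1 - w‖ < p.2 + e}.Finite := by
  by_contra hcon
  push Not at hcon
  set A : ℕ → Set (E × ℝ) := fun n => {p ∈ S | r ≤ p.2 ∧ ‖p.1 - w‖ < p.2 + 1 / ((n : ℝ) + 1)} with hA
  have hAi : ∀ n, (A n).Infinite := fun n => hcon _ (by positivity)
  have hAa : Antitone A := fun n m h p hp =>
    ⟨hp.1, hp.2.1, hp.2.2.trans_le (by linarith [Nat.one_div_le_one_div (α := ℝ) h])⟩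
  set F : Filter (E × ℝ) := ⨅ n, cofinite ⊓ 𝓟 (A n) with hF
  haveI : F.NeBot := iInf_neBot_of_directed (Antitone.directed_ge fun n m h =>
    inf_le_inf_left _ (principal_mono.2 (hAa h))) fun n => (cofinite_inf_principal_neBot_iff).2 (hAi n)
  have eA : ∀ n, ∀ᶠ p in F, p ∈ A n := fun n => mem_iInf_of_mem n (mem_inf_of_right (mem_principal_self _))
  have eN : ∀ y, ∀ᶠ p in F, 0 < pw p y := fun y => by
    have : ∀ᶠ p in F, p ∉ {p ∈ S | y ∈ closedBall p.1 p.2} :=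
      mem_iInf_of_mem 0 (mem_inf_of_left (hfin y).compl_mem_cofinite)
    filter_upwards [this, eA 0] with p h1 h2
    by_contra h
    exact h1 ⟨h2.1, mem_of_pw (hpos p h2.1) (not_lt.1 h)⟩
  set g : E × ℝ → ℝ := fun p => ‖p.1 - w‖ - p.2 with hg
  set d : E × ℝ → E := fun p => ‖p.1 - w‖⁻¹ • (p.1 - w) with hd
  have eB : ∀ᶠ p in F, p ∈ S ∧ r ≤ p.2 ∧ 0 < g p ∧ ‖d p‖ = 1 ∧ p.1 = w + (p.2 + g p) • d p := by
    filter_upwards [eA 0, eN w] with p h1 h2
    have h3 : p.2 < ‖p.1 - w‖ := by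
      rw [norm_sub_rev]
      exact lt_of_pow_lt_pow_left₀ 2 (norm_nonneg _) (by unfold pw at h2; linarith)
    have h4 : ‖p.1 - w‖ ≠ 0 := by linarith [hpos p h1.1]
    refine ⟨h1.1, h1.2.1, by simp only [hg]; linarith, ?_, ?_⟩
    · simp only [hd]; rw [norm_smul, norm_inv, norm_norm, inv_mul_cancel₀ h4]
    · simp only [hd, hg]; rw [add_sub_cancel, smul_smul, mul_inv_cancel₀ h4, one_smul, add_sub_cancel]
  have tg : Tendsto g F (𝓝 0) := by
    refine tendsto_order.2 ⟨fun a ha => eB.mono fun p hp => ha.trans hp.2.2.1, fun a ha => ?_⟩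
    obtain ⟨n, hn⟩ := exists_nat_one_div_lt ha
    exact (eA n).mono fun p hp => by simp only [hg]; linarith [hp.2.2]
  have wk1 : ∀ (v : E) (c : ℝ), 0 < c → ∀ᶠ p in F, ⟪v, d p⟫ < c := by
    intro v c hc
    set s : ℝ := r * c / (‖v‖ ^ 2 + 1) with hs
    have s0 : 0 < s := by positivity
    filter_upwards [eB, eN (w + s • v), tg.eventually_lt_const hr,
      tg.eventually_lt_const (show 0 < s * c / 3 by positivity)] with p h1 h2 h3 h4
    by_contra h
    push Not at h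
    obtain ⟨-, b1, b2, b3, b4⟩ := h1
    have a1 : s * c ≤ ⟪s • v, d p⟫ := by
      rw [real_inner_smul_left]; exact mul_le_mul_of_nonneg_left h s0.le
    have a2 : ‖s • v‖ ^ 2 ≤ r * (s * c) := by
      rw [norm_smul, Real.norm_of_nonneg s0.le, mul_pow]
      have : s * (‖v‖ ^ 2 + 1) = r * c := by rw [hs]; field_simp
      nlinarith
    refine (geo b1 b3 b4 (by nlinarith) ?_).not_gt h2
    nlinarith [mul_le_mul_of_nonneg_left a1 hr.le, mul_pos b2 (lt_of_lt_of_le (mul_pos s0 hc) a1),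
      mul_lt_mul_of_pos_left h4 hr, mul_lt_mul_of_pos_left h3 b2]
  have wk : ∀ v : E, Tendsto (fun p => ⟪v, d p⟫) F (𝓝 0) := fun v =>
    tendsto_order.2 ⟨fun a ha => (wk1 (-v) (-a) (by linarith)).mono fun p hp => by
      rw [inner_neg_left] at hp; linarith, wk1 v⟩
  obtain ⟨V, u, h, hh, hk, hZ⟩ := hw
  set N : Submodule ℝ E := Submodule.span ℝ (V : Set E) with hN
  haveI : FiniteDimensional ℝ N := FiniteDimensional.span_finset ℝ V
  have te : Tendsto (fun p => N.starProjection (d p)) F (𝓝 0) := by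
    simp only [(stdOrthonormalBasis ℝ N).starProjection_eq_sum_rankOne, ContinuousLinearMap.sum_apply,
      InnerProductSpace.rankOne_apply]
    have := tendsto_finsetSum Finset.univ fun i _ =>
      (wk (stdOrthonormalBasis ℝ N i : E)).smul_const (stdOrthonormalBasis ℝ N i : E)
    simpa using this
  set k : ℝ := ⟪u, h⟫ with hk'
  set t : ℝ := r / (2 * k) with ht
  have t0 : 0 < t := by positivity
  set b : E × ℝ → E := fun p => N.starProjection (d p) + t • h with hb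
  have tb : Tendsto b F (𝓝 (t • h)) := by simpa using te.add_const (t • h)
  have tdb : Tendsto (fun p => ⟪d p, b p⟫) F (𝓝 0) := by
    have h1 : Tendsto (fun p => ⟪d p, N.starProjection (d p)⟫) F (𝓝 0) := by
      refine squeeze_zero_norm' (eB.mono fun p hp => ?_) (tendsto_zero_iff_norm_tendsto_zero.1 te)
      simpa [hp.2.2.2.1] using norm_inner_le_norm (𝕜 := ℝ) (d p) (N.starProjection (d p))
    have := h1.add (wk (t • h))
    rw [add_zero] at this
    exact this.congr fun p => by simp only [hb]; rw [inner_add_right, real_inner_comm (t • h)]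
  have t1 : Tendsto (fun p => ⟪u, d p - b p⟫) F (𝓝 (-(t * k))) := by
    have := (wk u).sub (tendsto_const_nhds (x := u).inner (𝕜 := ℝ) tb)
    rw [zero_sub, real_inner_smul_right] at this
    exact this.congr fun p => by rw [inner_sub_right]
  have t2 : Tendsto (fun p => ⟪d p - b p, d p⟫) F (𝓝 1) := by
    have := tdb.const_sub 1
    rw [sub_zero] at this
    exact this.congr' (eB.mono fun p hp => by
      beta_reduce
      rw [inner_sub_left, real_inner_self_eq_norm_sq, hp.2.2.2.1, real_inner_comm]; norm_num)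
  have t3 : Tendsto (fun p => ‖d p - b p‖ ^ 2) F (𝓝 (1 + ‖t • h‖ ^ 2)) := by
    have := ((tdb.const_mul 2).const_sub 1).add (tb.norm.pow 2)
    rw [mul_zero, sub_zero] at this
    exact this.congr' (eB.mono fun p hp => by beta_reduce; rw [norm_sub_sq_real, hp.2.2.2.1]; norm_num)
  set n2 : ℝ := 1 + ‖t • h‖ ^ 2 with hn2
  have n0 : 0 < n2 := by positivity
  set L : E × ℝ → ℝ := fun p => -2 * ⟪u, d p - b p⟫ / ‖d p - b p‖ ^ 2 with hL
  have tL : Tendsto L F (𝓝 (r / n2)) := by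
    have := (t1.const_mul (-2)).div t3 n0.ne'
    rwa [show -2 * -(t * k) = r by rw [ht]; field_simp] at this
  have c1 := ((tL.mul t2).sub tg).eventually_const_lt (show 0 < r / n2 * 1 - 0 by simp; positivity)
  have c2 := (((((tL.pow 2).mul t3).add (tg.pow 2)).sub ((tg.const_mul 2).mul (tL.mul t2))).sub
    (((tL.mul t2).sub tg).const_mul (2 * r))).eventually_lt_const (u := 0) (by
      have : (r / n2) ^ 2 * n2 + 0 ^ 2 - 2 * 0 * (r / n2 * 1) - 2 * r * (r / n2 * 1 - 0) = -(r ^ 2 / n2) := by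
        field_simp; ring
      rw [this, neg_lt_zero]; positivity)
  obtain ⟨p, ⟨⟨b0, b1, b2, b3, b4⟩, h1⟩, h2, h3⟩ :=
    ((eB.and c1).and (c2.and (t3.eventually_const_lt n0))).exists
  have hz := hZ (L p • (d p - b p)) (fun v hv => by
    have h4 : ⟪v, d p - N.starProjection (d p)⟫ = 0 :=
      (Submodule.mem_orthogonal _ _).1 (N.sub_starProjection_mem_orthogonal (d p)) v
        (Submodule.subset_span hv)
    simp only [hb]
    rw [real_inner_smul_right, ← sub_sub, inner_sub_right, h4, real_inner_smul_right, hh v hv]; ring)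
    (by
      refine (pow_left_inj₀ (norm_nonneg _) (norm_nonneg _) two_ne_zero).1 ?_
      rw [norm_add_sq_real, real_inner_smul_right, norm_smul, mul_pow, Real.norm_eq_abs, sq_abs]
      simp only [hL]
      field_simp
      ring) p b0
  refine (geo b1 b3 b4 ?_ ?_).not_ge hz
  · rw [real_inner_smul_left]; linarith
  · rw [real_inner_smul_left, norm_smul, mul_pow, Real.norm_eq_abs, sq_abs]; exact h2

lemma step [CompleteSpace E] {S : Set (E × ℝ)} (hpos : ∀ p ∈ S, 0 < p.2)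
    (hfin : ∀ x, {p ∈ S | x ∈ closedBall p.1 p.2}.Finite)
    (hinf : ∀ V : Finset E, ∃ e : E, e ≠ 0 ∧ ∀ v ∈ V, ⟪v, e⟫ = 0) {w : E} (hw : Good S w)
    {r e : ℝ} (hr : 0 < r) (he : 0 < e) : ∃ w' e', Good S w' ∧ 0 < e' ∧ e' ≤ e / 2 ∧
      closedBall w' e' ⊆ closedBall w e ∧
      ∀ p ∈ S, r ≤ p.2 → ∀ x ∈ closedBall w' e', x ∉ closedBall p.1 p.2 := by
  classical
  obtain ⟨a, a0, hA⟩ := loc hpos hfin hw hr
  have hZ : ∀ p ∈ S, 0 ≤ pw p w := fun p hp => by
    obtain ⟨V, u, h, -, -, hZ⟩ := hw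
    simpa using hZ 0 (fun _ _ => by simp) (by simp) p hp
  have o1 : IsOpen (⋂ p ∈ {p ∈ S | (r ≤ p.2 ∧ ‖p.1 - w‖ < p.2 + a) ∧ w ∉ closedBall p.1 p.2},
      (closedBall p.1 p.2)ᶜ) :=
    (hA.subset fun p hp => ⟨hp.1, hp.2.1⟩).isOpen_biInter fun p _ => isClosed_closedBall.isOpen_compl
  obtain ⟨c, c0, hc⟩ := Metric.isOpen_iff.1 o1 w (mem_iInter₂.2 fun p hp => hp.2.2)
  set s : ℝ := min e (min a c) / 3 with hs
  have s0 : 0 < s := by positivity
  have s1 : 3 * s ≤ e := by rw [hs]; linarith [min_le_left e (min a c)]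
  have s2 : 3 * s ≤ a := by rw [hs]; linarith [min_le_right e (min a c), min_le_left a c]
  have s3 : 3 * s ≤ c := by rw [hs]; linarith [min_le_right e (min a c), min_le_right a c]
  obtain ⟨u, hu, hn, hV⟩ := sph hpos hfin hinf w ((hfin w).toFinset.image fun p => p.1 - w) s0
    fun p hp => le_trans (by nlinarith) (hZ p hp)
  have o2 : IsOpen (⋂ p ∈ {p ∈ S | w ∈ closedBall p.1 p.2}, (closedBall p.1 p.2)ᶜ) :=
    (hfin w).isOpen_biInter fun p _ => isClosed_closedBall.isOpen_compl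
  obtain ⟨b, b0, hb⟩ := Metric.isOpen_iff.1 o2 (w + u) (mem_iInter₂.2 fun p hp h => by
    have h1 := hV _ (Finset.mem_image.2 ⟨p, (hfin w).mem_toFinset.2 hp, rfl⟩)
    have h2 := hZ p hp.1
    rw [mem_closedBall, dist_eq_norm] at h
    have h3 := pow_le_pow_left₀ (norm_nonneg _) h 2
    rw [show w + u - p.1 = u - (p.1 - w) by abel, norm_sub_sq_real, real_inner_comm, h1, hn,
      norm_sub_rev] at h3
    unfold pw at h2
    nlinarith)
  have sub : ∀ x ∈ closedBall (w + u) (min s (b / 2)), dist x w ≤ 2 * s := fun x hx => by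
    have h1 := dist_triangle x (w + u) w
    rw [dist_eq_norm (w + u), add_sub_cancel_left, hn] at h1
    linarith [mem_closedBall.1 hx, min_le_left s (b / 2)]
  refine ⟨w + u, min s (b / 2), hu, by positivity, by linarith [min_le_left s (b / 2)],
    fun x hx => mem_closedBall.2 (by linarith [sub x hx]), fun p hp hr x hx h => ?_⟩
  by_cases h1 : w ∈ closedBall p.1 p.2
  · exact mem_iInter₂.1 (hb (mem_ball.2 (by linarith [mem_closedBall.1 hx, min_le_right s (b / 2)])))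
      p ⟨hp, h1⟩ h
  · refine mem_iInter₂.1 (hc (mem_ball.2 (by linarith [sub x hx]))) p ⟨hp, ⟨hr, ?_⟩, h1⟩ h
    have h2 := dist_triangle_left p.1 w x
    rw [dist_eq_norm] at h2
    linarith [mem_closedBall.1 h, sub x hx]

theorem main [CompleteSpace E] {S : Set (E × ℝ)} (hpos : ∀ p ∈ S, 0 < p.2)
    (hcov : ∀ x, ∃ p ∈ S, x ∈ closedBall p.1 p.2)
    (hfin : ∀ x, {p ∈ S | x ∈ closedBall p.1 p.2}.Finite)
    (hinf : ∀ V : Finset E, ∃ e : E, e ≠ 0 ∧ ∀ v ∈ V, ⟪v, e⟫ = 0) : False := by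
  obtain ⟨w0, hw0⟩ : ∃ w, Good S w := by
    obtain ⟨R, hR⟩ := ((hfin 0).image Prod.snd).bddAbove
    obtain ⟨u, hu, -⟩ := sph hpos hfin hinf 0 ∅ (s := |R| + 1) (by positivity) fun p hp => by
      by_cases h : pw p 0 ≤ 0
      · have h1 : p.2 ≤ R := hR ⟨p, ⟨hp, mem_of_pw (hpos p hp) h⟩, rfl⟩
        have h2 := pow_le_pow_left₀ (hpos p hp).le (show p.2 ≤ |R| + 1 by linarith [le_abs_self R]) 2
        unfold pw
        linarith [sq_nonneg ‖0 - p.1‖]
      · linarith [sq_nonneg (|R| + 1)]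
    exact ⟨_, hu⟩
  have st : ∀ (n : ℕ) (s : {s : E × ℝ // Good S s.1 ∧ 0 < s.2}), ∃ s' : {s : E × ℝ // Good S s.1 ∧ 0 < s.2},
      s'.1.2 ≤ s.1.2 / 2 ∧ closedBall s'.1.1 s'.1.2 ⊆ closedBall s.1.1 s.1.2 ∧
      ∀ p ∈ S, 1 / ((n : ℝ) + 1) ≤ p.2 → ∀ x ∈ closedBall s'.1.1 s'.1.2, x ∉ closedBall p.1 p.2 := by
    rintro n ⟨s, h1, h2⟩
    obtain ⟨w, e, a, b, c⟩ := step hpos hfin hinf h1 (r := 1 / ((n : ℝ) + 1)) (by positivity) h2
    exact ⟨⟨(w, e), a, b⟩, c⟩
  choose f hf using st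
  let s : ℕ → {s : E × ℝ // Good S s.1 ∧ 0 < s.2} :=
    fun n => Nat.rec ⟨(w0, 1), hw0, one_pos⟩ (fun n s => f n s) n
  obtain ⟨x, hx⟩ := nested (fun n => closedBall (s n).1.1 (s n).1.2)
    (antitone_nat_of_succ_le fun n => (hf n (s n)).2.1) (fun _ => isClosed_closedBall)
    (fun _ => convex_closedBall _ _) (fun n => ⟨_, mem_closedBall_self (s n).2.2.le⟩) (‖w0‖ + 1)
    fun x hx => by
      have : dist x w0 ≤ 1 := hx
      rw [dist_eq_norm] at this
      linarith [norm_sub_norm_le x w0]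
  obtain ⟨p, hp, hxp⟩ := hcov x
  obtain ⟨n, hn⟩ := exists_nat_one_div_lt (hpos p hp)
  exact (hf n (s n)).2.2 p hp hn.le x (hx (n + 1)) hxp

lemma inf_of [CompleteSpace E] (h : ¬ FiniteDimensional ℝ E) (V : Finset E) :
    ∃ e : E, e ≠ 0 ∧ ∀ v ∈ V, ⟪v, e⟫ = 0 := by
  haveI : FiniteDimensional ℝ (Submodule.span ℝ (V : Set E)) := FiniteDimensional.span_finset ℝ V
  have : (Submodule.span ℝ (V : Set E))ᗮ ≠ ⊥ := fun e => h (by
    rw [Submodule.orthogonal_eq_bot_iff] at e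
    exact ⟨⟨V, e⟩⟩)
  obtain ⟨e, he, he0⟩ := (Submodule.ne_bot_iff _).1 this
  exact ⟨e, he0, fun v hv => (Submodule.mem_orthogonal _ _).1 he v (Submodule.subset_span hv)⟩

end Pool.Agent.H.MP_097dd0_an
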